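import Pool.Agent.Helper53.UR.Par

/-!
# Project UR, packet ETB
-/

set_option autoImplicit false

namespace Pool.Agent.Helper98.UR

open Pool.Agent.Helper65.LinSpace Pool.Agent.Helper78.Mpc Filter
open Pool.Agent.Helper65.BR (Mach BM prm bT lT)
open Pool.Agent.Helper53.CTG (ev Et Nt Hb Eb Fb Pb Gb Rb)
open Pool.Agent.Helper53.UR

theorem Eb_le {b : ℕ} (hb : 1 ≤ b) : Eb b ≤ 6 * b * (Nat.log 2 b + 7) := by
  have h1 : Pb b ≤ 64 * b := by
    unfold Pb Rb
    omega
  have h2 : Nat.log 2 (Pb b) ≤ Nat.log 2 b + 6 := by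
    refine (Nat.log_mono_right h1).trans ?_
    have h3 : 64 * b = b * 2 ^ 6 := by ring
    rw [h3]
    have : Nat.log 2 (b * 2 ^ 6) = Nat.log 2 b + 6 := by
      have e : ∀ k : ℕ, Nat.log 2 (b * 2 ^ k) = Nat.log 2 b + k := by
        intro k
        induction k with
        | zero => simp
        | succ k ih =>
          rw [pow_succ, ← mul_assoc, Nat.log_mul_base (by norm_num) (by positivity), ih]
          ring
      exact e 6
    exact this.le
  unfold Eb
  have h4 : 4 * b + 2 ≤ 6 * b := by omega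
  exact Nat.mul_le_mul h4 (by omega)

theorem Fb_le {N q b : ℕ} (hb : 1 ≤ b) : Fb N q b ≤ 8 * (Hb N q + 1) := by
  have hR : 0 < Rb b := by
    unfold Rb
    omega
  have h1 : Pb b < 146 * Rb b := by
    unfold Pb Rb
    omega
  have h2 : Pb b / Rb b < 146 := (Nat.div_lt_iff_lt_mul hR).2 h1
  have h3 : Gb b ≤ 255 := by
    unfold Gb
    omega
  have h4 : Nat.log 2 (Gb b) ≤ 7 := by
    refine (Nat.log_mono_right h3).trans ?_
    have : Nat.log 2 255 < 8 := Nat.log_lt_of_lt_pow (by norm_num) (by norm_num)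
    omega
  unfold Fb
  rw [mul_comm]
  exact Nat.mul_le_mul (by omega) le_rfl

theorem Hb_eq {K q : ℕ} (hK : 1 ≤ K) (hq : 1 ≤ q) : Hb (K * q) q = K := by
  unfold Hb
  obtain ⟨k, rfl⟩ : ∃ k, K = k + 1 := ⟨K - 1, by omega⟩
  have h1 : (k + 1) * q - 1 = (q - 1) + q * k := by
    have : (k + 1) * q = q * k + q := by ring
    omega
  rw [h1, Nat.add_mul_div_left _ _ hq, Nat.div_eq_of_lt (by omega), zero_add]

theorem eU_le (n T : ℕ) : eU n T ≤ Nat.log 2 n := by
  unfold eU betU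
  exact Nat.log_mono_right ((Nat.div_le_self _ _).trans (Nat.div_le_self _ _))

theorem lT_le (n T : ℕ) : lT n T ≤ 2 * n + 5 := by
  have h1 : bT n T 2 ≤ n := (min_le_right _ _).trans (Pool.Agent.Helper28.Long.ZL_le n)
  have h2 : Nat.log 2 n ≤ n := Nat.log_le_self _ _
  unfold lT
  have h3 : ll n = Nat.log 2 n + 1 := rfl
  change bT n T 2 + ll n + 4 ≤ 2 * n + 5
  omega

/-- the arithmetic of the bound -/
theorem arith {n L q K E F b c : ℕ} (hq : q + 2 ≤ L) (hK : L * K ≤ n + L) (hL : L ≤ 2 * n + 5)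
    (hE : (3 * q + 4) * E ≤ 36 * n + 126 * L) (hF : F ≤ 8 * (K + 1)) (hb : b ≤ n + 1)
    (hc : c ≤ L) :
    (3 * q + 4) * (E + F) + 4 * (K * q + K) + 4 * b + c * (K + 2) + 4 ≤ 1000 * (n + 1) := by
  have h1 : (3 * q + 4) * F ≤ (3 * L) * (8 * (K + 1)) := Nat.mul_le_mul (by omega) hF
  have h2 : K * q + K ≤ L * K := by
    have : K * (q + 1) ≤ K * L := Nat.mul_le_mul_left _ (by omega)
    calc K * q + K = K * (q + 1) := by ring
      _ ≤ K * L := this
      _ = L * K := by ring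
  have h3 : c * (K + 2) ≤ L * (K + 2) := Nat.mul_le_mul_right _ hc
  have h4 : (3 * L) * (8 * (K + 1)) = 24 * (L * K) + 24 * L := by ring
  have h5 : L * (K + 2) = L * K + 2 * L := by ring
  rw [mul_add]
  omega

theorem part1 (n T : ℕ) : Et (NU n T) (eU n T + 3) (bU n T) (cU n T) ≤ 1000 * (n + 1) := by
  have hLd : lT n T = bT n T 2 + (Nat.log 2 n + 1) + 4 := rfl
  have hL := lT_le n T
  have he := eU_le n T
  have hLpos : 0 < lT n T := by omega
  have hK1 : 1 ≤ KU n T := Nat.le_add_left 1 _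
  have hHb : Hb (NU n T) (eU n T + 3) = KU n T := Hb_eq hK1 (by omega)
  have hKL : lT n T * KU n T ≤ n + lT n T := by
    unfold KU
    have := Nat.mul_div_le n (lT n T)
    rw [mul_add, mul_one]
    omega
  have hq : eU n T + 3 + 2 ≤ lT n T := by omega
  unfold Et
  rw [show Nt (NU n T) (eU n T + 3) = KU n T * (eU n T + 3) + KU n T by
    unfold Nt
    rw [hHb]
    rfl, hHb]
  by_cases hok : okU n T = 0
  · have hb : bU n T = 1 := by simp [bU, ifz, hok]
    have hc : cU n T = 0 := by simp [cU, ifz, hok]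
    rw [hb, hc]
    refine arith hq hKL hL ?_ ?_ (by omega) (by omega)
    · have h1 : Eb 1 ≤ 42 := by
        have := Eb_le (b := 1) le_rfl
        simpa using this
      calc (3 * (eU n T + 3) + 4) * Eb 1 ≤ (3 * lT n T) * 42 := Nat.mul_le_mul (by omega) h1
        _ ≤ 36 * n + 126 * lT n T := by omega
    · have := Fb_le (N := NU n T) (q := eU n T + 3) (b := 1) le_rfl
      rwa [hHb] at this
  · have hb : bU n T = betU n T := by simp [bU, ifz, hok]
    have hc : cU n T = bT n T 2 + 2 := by simp [cU, ifz, hok]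
    have hb1 : 1 ≤ betU n T := by
      by_contra h
      refine hok ?_
      unfold okU le01
      rw [if_neg (by omega), zero_mul]
    have hbn : betU n T * (lT n T * lT n T) ≤ n := by
      unfold betU
      exact Nat.div_mul_le_self _ _
    have hbn' : betU n T ≤ n := by
      unfold betU
      exact Nat.div_le_self _ _
    rw [hb, hc]
    refine arith hq hKL hL ?_ ?_ (by omega) (by omega)
    · have h1 := Eb_le hb1
      have h2 : Nat.log 2 (betU n T) ≤ Nat.log 2 n := Nat.log_mono_right hbn'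
      have h3 : Eb (betU n T) ≤ 6 * betU n T * (2 * lT n T) :=
        h1.trans (Nat.mul_le_mul_left _ (by omega))
      calc (3 * (eU n T + 3) + 4) * Eb (betU n T)
          ≤ (3 * lT n T) * (6 * betU n T * (2 * lT n T)) := Nat.mul_le_mul (by omega) h3
        _ = 36 * (betU n T * (lT n T * lT n T)) := by ring
        _ ≤ 36 * n := Nat.mul_le_mul_left _ hbn
        _ ≤ 36 * n + 126 * lT n T := by omega
    · have := Fb_le (N := NU n T) (q := eU n T + 3) (b := betU n T) hb1
      rwa [hHb] at this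

theorem gETB : GoalETB := by
  refine ⟨part1, fun z => ?_⟩
  unfold Qn.W capPow
  refine min_eq_left ?_
  have h1 : Et z.N z.q z.b z.c ≤ 1000 * (z.n + 1) := part1 z.n z.T
  have h2 : 2 ^ (z.n + 1) ≤ (z.2.1 + 2) ^ 2 := by
    change 2 ^ (Nat.log 2 z.2.1 + 1) ≤ (z.2.1 + 2) ^ 2
    rcases Nat.eq_zero_or_pos z.2.1 with h | h
    · rw [h]
      simp
    · have h3 : 2 ^ Nat.log 2 z.2.1 ≤ z.2.1 := Nat.pow_log_le_self _ (by omega)
      rw [pow_succ]
      nlinarith
  calc 2 ^ Et z.N z.q z.b z.c ≤ 2 ^ (1000 * (z.n + 1)) := Nat.pow_le_pow_right (by norm_num) h1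
    _ = (2 ^ (z.n + 1)) ^ 1000 := by rw [← pow_mul, mul_comm]
    _ ≤ ((z.2.1 + 2) ^ 2) ^ 1000 := Nat.pow_le_pow_left h2 _
    _ = (z.2.1 + 2) ^ 2000 := by rw [← pow_mul]
    _ ≤ (z.2.1 + 2) ^ 2000 + 1 := Nat.le_succ _

end Pool.Agent.Helper98.UR
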